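import Mathlib
import Pool.Agent.H.MP_95d40a_an.A

set_option autoImplicit false

namespace Pool.Agent.Results.MP_95d40a_an.Complex

open scoped ENNReal

/-- moduli of the points of the numerical range -/
def range {X : Type} [NormedAddCommGroup X] [NormedSpace ℂ X] (T : X →L[ℂ] X) : Set ℝ :=
  {r | ∃ (x : X) (l : X →L[ℂ] ℂ), ‖x‖ = 1 ∧ ‖l‖ = 1 ∧ l x = 1 ∧ r = ‖l (T x)‖}

/-- numerical index of a complex normed space -/
noncomputable def index (X : Type) [NormedAddCommGroup X] [NormedSpace ℂ X] : ℝ :=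
  sInf {r | ∃ T : X →L[ℂ] X, ‖T‖ = 1 ∧ r = sSup (range T)}

/-- the constant `1 / (p ^ (1/p) * q ^ (1/q))`, `q = p / (p - 1)` -/
noncomputable def kappa (p : ℝ) : ℝ :=
  1 / (p ^ (1 / p) * (p / (p - 1)) ^ (1 / (p / (p - 1))))

theorem result (p : ℝ≥0∞) [Fact (1 ≤ p)] (h1 : 1 < p) (h : p ≠ ⊤) (h2 : p ≠ 2) (ι : Type)
    [Nontrivial ι] : index (lp (fun _ : ι => ℂ) p) < kappa p.toReal := by
  classical
  obtain ⟨i, j, hij⟩ := exists_pair_ne ι
  obtain ⟨T, a, c, c0, b, k⟩ := H.MP_95d40a_an.main (p := p)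
    (by simpa using (ENNReal.toReal_lt_toReal ENNReal.one_ne_top h).2 h1)
    (fun e => h2 ((ENNReal.toReal_eq_toReal_iff' h ENNReal.ofNat_ne_top).1 (by simpa using e))) hij
  refine lt_of_le_of_lt (le_trans (b := sSup (range T)) (csInf_le ⟨0, ?_⟩ ⟨T, a, rfl⟩)
    (Real.sSup_le ?_ c0)) b
  · rintro _ ⟨S, -, rfl⟩
    exact Real.sSup_nonneg (by rintro _ ⟨x, l, -, -, -, rfl⟩; exact norm_nonneg _)
  · rintro _ ⟨x, l, u, v, w, rfl⟩
    exact k x l u v w

end Pool.Agent.Results.MP_95d40a_an.Complex
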